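import Pool.Agent.Helper75.PX.Stmts2

/-!
# Row GOL: the element of `A ⊗ A` that maps to the flip
-/

set_option autoImplicit false

universe u

open Module TensorProduct
open scoped Kronecker

namespace Pool.Agent.Helper75.PX

theorem gol_trace_mulLeft {Ω : Type u} [Field Ω] {n : ℕ} (M : Matrix (Fin n) (Fin n) Ω) :
    LinearMap.trace Ω (Matrix (Fin n) (Fin n) Ω) (LinearMap.mulLeft Ω M) = n * M.trace := by
  rw [LinearMap.trace_eq_matrix_trace Ω (Matrix.stdBasis Ω (Fin n) (Fin n))]
  simp only [Matrix.trace, Matrix.diag_apply, LinearMap.toMatrix_apply, LinearMap.mulLeft_apply]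
  have h : ∀ p : Fin n × Fin n, (Matrix.stdBasis Ω (Fin n) (Fin n)).repr
      (M * Matrix.stdBasis Ω (Fin n) (Fin n) p) p = M p.1 p.1 := by
    rintro ⟨i, j⟩
    rw [Matrix.stdBasis_eq_single]
    have h2 : ∀ N : Matrix (Fin n) (Fin n) Ω,
        (Matrix.stdBasis Ω (Fin n) (Fin n)).repr N (i, j) = N i j := fun N => rfl
    rw [h2]
    simp
  rw [Finset.sum_congr rfl fun p _ => h p, Fintype.sum_prod_type]
  simp [Finset.mul_sum]

theorem gol_smul {K Ω : Type u} [Field K] [Field Ω] [Algebra K Ω] {n : ℕ} (k : K)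
    (M : Matrix (Fin n) (Fin n) Ω) : k • M = (algebraMap K Ω k) • M := by
  ext i j
  simp [Algebra.smul_def]

theorem st_GOL : ST_GOL.{u} := by
  classical
  intro K A Ω _ _ _ _ _ n Ψ hspan hn hrank hchar
  have hfd : FiniteDimensional K A := FiniteDimensional.of_finrank_pos (by rw [hrank]; positivity)
  set b : Basis (Fin (n ^ 2)) K A := finBasisOfFinrankEq K A hrank with hb
  set E : Fin (n ^ 2) → Matrix (Fin n) (Fin n) Ω := fun i => Ψ (b i) with hE
  have hΨ : ∀ x : A, Ψ x = ∑ i, algebraMap K Ω (b.repr x i) • E i := by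
    intro x
    conv_lhs => rw [← b.sum_repr x]
    rw [map_sum]
    refine Finset.sum_congr rfl fun i _ => ?_
    rw [map_smul, gol_smul]
  have htop : ⊤ ≤ Submodule.span Ω (Set.range E) := by
    rw [← hspan, Submodule.span_le]
    rintro _ ⟨x, rfl⟩
    rw [SetLike.mem_coe, hΨ x]
    exact Submodule.sum_mem _ fun i _ =>
      Submodule.smul_mem _ _ (Submodule.subset_span ⟨i, rfl⟩)
  have hcard : Fintype.card (Fin (n ^ 2)) = finrank Ω (Matrix (Fin n) (Fin n) Ω) := by
    rw [Fintype.card_fin, Module.finrank_matrix]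
    simp [sq]
  set bE := basisOfTopLeSpanOfCardEqFinrank E htop hcard with hbE
  have hbEi : ∀ i, bE i = E i := fun i => by
    rw [hbE, coe_basisOfTopLeSpanOfCardEqFinrank]
  have hrepr : ∀ (x : A) (i : Fin (n ^ 2)), bE.repr (Ψ x) i = algebraMap K Ω (b.repr x i) := by
    intro x i
    have h1 : Ψ x = ∑ i, algebraMap K Ω (b.repr x i) • bE i := by
      rw [hΨ x]
      exact Finset.sum_congr rfl fun i _ => by rw [hbEi]
    rw [h1, bE.repr_sum_self]
  -- the trace is rational
  have hnΩ : (n : Ω) ≠ 0 := by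
    intro h
    apply hchar
    have h1 : algebraMap K Ω (n : K) = 0 := by rw [map_natCast]; exact h
    exact (map_eq_zero (algebraMap K Ω)).1 h1
  set t : A → K := fun x => LinearMap.trace K A (LinearMap.mulLeft K x) / n with ht
  have htr : ∀ x : A, algebraMap K Ω (t x) = (Ψ x).trace := by
    intro x
    have h1 := gol_trace_mulLeft (Ψ x)
    have h2 : LinearMap.trace Ω (Matrix (Fin n) (Fin n) Ω) (LinearMap.mulLeft Ω (Ψ x)) =
        algebraMap K Ω (LinearMap.trace K A (LinearMap.mulLeft K x)) := by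
      rw [LinearMap.trace_eq_matrix_trace Ω bE, LinearMap.trace_eq_matrix_trace K b]
      simp only [Matrix.trace, Matrix.diag_apply, LinearMap.toMatrix_apply,
        LinearMap.mulLeft_apply, map_sum]
      refine Finset.sum_congr rfl fun i _ => ?_
      rw [hbEi, hE]
      simp only
      rw [← map_mul, hrepr]
    simp only [ht, map_div₀, map_natCast]
    rw [← h2, h1]
    field_simp
  set G : Matrix (Fin (n ^ 2)) (Fin (n ^ 2)) K := Matrix.of fun i j => t (b i * b j) with hG
  have hGΩ : ∀ i j, algebraMap K Ω (G i j) = (E i * E j).trace := by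
    intro i j
    rw [hG, Matrix.of_apply, htr, map_mul]
  have hinj : Function.Injective (G.map (algebraMap K Ω)).mulVec := by
    rw [← Matrix.coe_mulVecLin, ← LinearMap.ker_eq_bot, LinearMap.ker_eq_bot']
    intro c hc
    have h1 : ∀ i, (E i * ∑ j, c j • E j).trace = 0 := by
      intro i
      have h2 := congrFun hc i
      rw [Matrix.mulVecLin_apply, Matrix.mulVec, dotProduct, Pi.zero_apply] at h2
      rw [Finset.mul_sum, Matrix.trace_sum, ← h2]
      refine Finset.sum_congr rfl fun j _ => ?_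
      rw [Matrix.map_apply, hGΩ, mul_smul_comm, Matrix.trace_smul, smul_eq_mul, mul_comm]
    have h3 : ∀ M : Matrix (Fin n) (Fin n) Ω, (M * ∑ j, c j • E j).trace = 0 := by
      intro M
      rw [← bE.sum_repr M, Finset.sum_mul, Matrix.trace_sum]
      refine Finset.sum_eq_zero fun i _ => ?_
      rw [smul_mul_assoc, Matrix.trace_smul, hbEi, h1, smul_zero]
    have h4 : ∑ j, c j • E j = 0 := by
      rw [Matrix.ext_iff_trace_mul_left]
      intro M
      rw [h3, mul_zero, Matrix.trace_zero]
    have h5 : ∑ j, c j • bE j = 0 := by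
      rw [← h4]; exact Finset.sum_congr rfl fun j _ => by rw [hbEi]
    funext j
    exact Fintype.linearIndependent_iff.1 bE.linearIndependent c h5 j
  have hdetΩ : IsUnit (G.map (algebraMap K Ω)).det := by
    rw [← Matrix.isUnit_iff_isUnit_det, ← Matrix.mulVec_injective_iff_isUnit]
    exact hinj
  have hdet : IsUnit G.det := by
    rw [isUnit_iff_ne_zero] at hdetΩ ⊢
    intro h
    apply hdetΩ
    have h1 : (G.map (algebraMap K Ω)).det = algebraMap K Ω G.det := by
      rw [RingHom.map_det]; rfl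
    rw [h1, h, map_zero]
  set y : Fin (n ^ 2) → A := fun k => ∑ j, G⁻¹ j k • b j with hy
  have hEF : ∀ i k, (E i * Ψ (y k)).trace = if i = k then 1 else 0 := by
    intro i k
    have h1 : Ψ (y k) = ∑ j, algebraMap K Ω (G⁻¹ j k) • E j := by
      rw [hy]
      simp only
      rw [map_sum]
      refine Finset.sum_congr rfl fun j _ => ?_
      rw [map_smul, gol_smul]
    rw [h1, Finset.mul_sum, Matrix.trace_sum]
    have h2 : ∀ j, (E i * algebraMap K Ω (G⁻¹ j k) • E j).trace =
        algebraMap K Ω (G i j * G⁻¹ j k) := by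
      intro j
      rw [mul_smul_comm, Matrix.trace_smul, ← hGΩ, smul_eq_mul, map_mul, mul_comm]
    rw [Finset.sum_congr rfl fun j _ => h2 j, ← map_sum]
    have h3 : ∑ j, G i j * G⁻¹ j k = (G * G⁻¹) i k := by rw [Matrix.mul_apply]
    rw [h3, Matrix.mul_nonsing_inv G hdet, Matrix.one_apply]
    split_ifs <;> simp
  have hM : ∀ M : Matrix (Fin n) (Fin n) Ω, ∑ i, (M * Ψ (y i)).trace • E i = M := by
    intro M
    have h1 : ∀ i, (M * Ψ (y i)).trace = bE.repr M i := by
      intro i
      conv_lhs => rw [← bE.sum_repr M, Finset.sum_mul, Matrix.trace_sum]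
      rw [Finset.sum_eq_single i]
      · rw [smul_mul_assoc, Matrix.trace_smul, hbEi, hEF, if_pos rfl, smul_eq_mul, mul_one]
      · intro k _ hk
        rw [smul_mul_assoc, Matrix.trace_smul, hbEi, hEF, if_neg hk, smul_zero]
      · intro h; exact absurd (Finset.mem_univ _) h
    rw [Finset.sum_congr rfl fun i _ => by rw [h1 i, ← hbEi i]]
    exact bE.sum_repr M
  refine ⟨n ^ 2, fun i => b i, y, ?_⟩
  ext ⟨p, q⟩ ⟨r, s⟩
  have h1 := congrFun (congrFun (hM (Matrix.single s q 1)) p) r
  rw [Matrix.sum_apply] at h1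
  rw [Matrix.sum_apply]
  have h2 : ∀ i, (Ψ (b i) ⊗ₖ Ψ (y i)) (p, q) (r, s) =
      ((Matrix.single s q (1 : Ω) * Ψ (y i)).trace • E i) p r := by
    intro i
    rw [Matrix.kroneckerMap_apply, Matrix.smul_apply, Matrix.trace_single_mul, one_smul,
      smul_eq_mul, mul_comm]
  rw [Finset.sum_congr rfl fun i _ => h2 i, h1, Matrix.single_apply]
  simp only [Pm, fl2, Matrix.of_apply, Prod.mk.injEq]
  congr 1
  exact propext ⟨fun h => ⟨h.2, h.1.symm⟩, fun h => ⟨h.2.symm, h.1⟩⟩

end Pool.Agent.Helper75.PX
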